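import Pool.Agent.R527.AP.Defs

namespace Pool.Agent.R527.AP

namespace Calcx

variable {A : Type} [DecidableEq A] {Mv : List A → List A → Prop}

theorem zero : Ach Mv (fun _ => 0) :=
  ⟨[], by simp, by simp⟩

theorem add {f g : List A → ℤ} (hf : Ach Mv f) (hg : Ach Mv g) :
    Ach Mv (fun w => f w + g w) := by
  obtain ⟨M, hM, h1⟩ := hf
  obtain ⟨M', hM', h2⟩ := hg
  refine ⟨M ++ M', ?_, ?_⟩
  · intro p hp
    rcases List.mem_append.mp hp with h | h
    · exact hM p h
    · exact hM' p h
  · intro w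
    rw [List.map_append, List.sum_append]
    exact add_le_add (h1 w) (h2 w)

theorem mono {f g : List A → ℤ} (hf : Ach Mv f) (h : ∀ w, g w ≤ f w) : Ach Mv g := by
  obtain ⟨M, hM, h1⟩ := hf
  exact ⟨M, hM, fun w => (h w).trans (h1 w)⟩

theorem nsm (n : ℕ) {f : List A → ℤ} (hf : Ach Mv f) :
    Ach Mv (fun w => (n : ℤ) * f w) := by
  induction n with
  | zero => exact mono zero (fun w => by simp)
  | succ n ih =>
    refine mono (add ih hf) (fun w => ?_)
    push_cast
    linarith

theorem move {X X' : List A} (h : Mv X X') :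
    Ach Mv (fun w => (occ X w : ℤ) - occ X' w) :=
  ⟨[(X, X')], by simpa using h, by simp⟩

end Calcx

theorem t_CALC : S_CALC := by
  intro A _ Mv
  exact ⟨Calcx.zero, fun f g hf hg => Calcx.add hf hg, fun f g hf h => Calcx.mono hf h,
    fun n f hf => Calcx.nsm n hf, fun X X' h => Calcx.move h⟩

end Pool.Agent.R527.AP
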