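import Pool.Agent.R527.AP.Defs

namespace Pool.Agent.R527.AP

theorem t_CARRY : S_CALC → S_CARRY := by
  intro hC r D e hr m
  obtain ⟨hzero, hadd, hmono, -, hmove⟩ := hC (Fin (r + 1)) (Mv r D e)
  induction m with
  | zero =>
    intro c x y
    refine hmono _ _ hzero (fun w => ?_)
    have e1 : c + Fin.ofNat (r + 1) 0 = c := by
      ext
      rw [Fin.val_add, Fin.val_ofNat, Nat.zero_mod, add_zero, Nat.mod_eq_of_lt c.2]
    simp only [List.replicate_zero, List.nil_append, e1]
    omega
  | succ m ih =>
    intro c x y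
    by_cases hc : c = Fin.last r
    · have h1 := ih 0 (x ++ [Fin.last r]) y
      refine hmono _ _ h1 (fun w => ?_)
      have e1 : (0 : Fin (r + 1)) + Fin.ofNat (r + 1) m = c + Fin.ofNat (r + 1) (m + 1) := by
        ext
        rw [hc, Fin.val_add, Fin.val_add, Fin.val_ofNat, Fin.val_ofNat, Fin.val_last, Fin.val_zero,
          Nat.add_mod_mod, Nat.add_mod_mod, zero_add, show r + (m + 1) = m + (r + 1) by ring,
          Nat.add_mod_right]
      have e2 : x ++ (c :: List.replicate (m + 1) 0) ++ y =
          (x ++ [Fin.last r]) ++ (0 :: List.replicate m 0) ++ y := by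
        rw [hc, List.replicate_succ]
        simp [List.append_assoc]
      have e3 : x ++ (List.replicate (m + 1) (Fin.last r) ++ [c + Fin.ofNat (r + 1) (m + 1)]) ++ y =
          (x ++ [Fin.last r]) ++ (List.replicate m (Fin.last r) ++
            [0 + Fin.ofNat (r + 1) m]) ++ y := by
        rw [e1, List.replicate_succ]
        simp [List.append_assoc]
      rw [e2, e3]
    · have hlt : c < Fin.last r := lt_of_le_of_ne (Fin.le_last c) hc
      have h1 := ih (c + 1) (x ++ [Fin.last r]) y
      have hv : ((c + 1 : Fin (r + 1)) : ℕ) = c + 1 := Fin.val_add_one_of_lt hlt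
      have hmv : Mv r D e (x ++ [c, 0] ++ (List.replicate m 0 ++ y))
          (x ++ [Fin.last r, c + 1] ++ (List.replicate m 0 ++ y)) := by
        refine Mv.A x _ c 0 (Fin.last r) (c + 1) ?_
        rw [hv, Fin.val_last, Fin.val_zero]
        omega
      have h2 := hmove _ _ hmv
      refine hmono _ _ (hadd _ _ h2 h1) (fun w => ?_)
      have e1 : c + 1 + Fin.ofNat (r + 1) m = c + Fin.ofNat (r + 1) (m + 1) := by
        have q1 : ((c + 1 + Fin.ofNat (r + 1) m : Fin (r + 1)) : ℕ) = ((c : ℕ) + (m + 1)) % (r + 1) := by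
          rw [Fin.val_add, hv, Fin.val_ofNat, Nat.add_mod_mod,
            show (c : ℕ) + 1 + m = c + (m + 1) by ring]
        have q2 : ((c + Fin.ofNat (r + 1) (m + 1) : Fin (r + 1)) : ℕ) =
            ((c : ℕ) + (m + 1)) % (r + 1) := by
          rw [Fin.val_add, Fin.val_ofNat, Nat.add_mod_mod]
        exact Fin.ext (q1.trans q2.symm)
      have e2 : x ++ (c :: List.replicate (m + 1) 0) ++ y =
          x ++ [c, 0] ++ (List.replicate m 0 ++ y) := by
        rw [List.replicate_succ]
        simp [List.append_assoc]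
      have e3 : x ++ (List.replicate (m + 1) (Fin.last r) ++ [c + Fin.ofNat (r + 1) (m + 1)]) ++ y =
          (x ++ [Fin.last r]) ++ (List.replicate m (Fin.last r) ++
            [c + 1 + Fin.ofNat (r + 1) m]) ++ y := by
        rw [e1, List.replicate_succ]
        simp [List.append_assoc]
      have e4 : (x ++ [Fin.last r]) ++ ((c + 1) :: List.replicate m 0) ++ y =
          x ++ [Fin.last r, c + 1] ++ (List.replicate m 0 ++ y) := by
        simp [List.append_assoc]
      rw [e2, e3, ← e4]
      omega

end Pool.Agent.R527.AP
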