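import Pool.Agent.R527.AP.Defs

namespace Pool.Agent.R527.AP

open Pool.Agent.R527.TIL (Share IsTiling)

namespace Compat

variable {r : ℕ}

theorem tl_nil (l d : ℕ) : tl l d ([] : List (Fin (r + 1))) = [] := rfl

theorem tl_cons (l d : ℕ) (c : Fin (r + 1)) (x : List (Fin (r + 1))) :
    tl l d (c :: x) = (l + (c : ℕ) * d) :: tl l d x := by
  simp [tl]

theorem tl_eq (l d : ℕ) (w : List (Fin (r + 1))) :
    tl l d w = List.map (fun c : Fin (r + 1) => l + (c : ℕ) * d) w := by
  induction w with
  | nil => rfl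
  | cons c w ih => rw [tl_cons, ih, List.map_cons]

theorem wt_append (l d : ℕ) (x y : List (Fin (r + 1))) :
    wt l d (x ++ y) = wt l d x + wt l d y := by
  simp [wt, tl]

theorem wt_cons (l d : ℕ) (c : Fin (r + 1)) (x : List (Fin (r + 1))) :
    wt l d (c :: x) = (l + (c : ℕ) * d) + wt l d x := by
  simp [wt, tl]

theorem wt_nil (l d : ℕ) : wt l d ([] : List (Fin (r + 1))) = 0 := rfl

theorem sg_cons (c : Fin (r + 1)) (x : List (Fin (r + 1))) : sg (c :: x) = (c : ℕ) + sg x := by
  simp [sg]

theorem sg_append (x y : List (Fin (r + 1))) : sg (x ++ y) = sg x + sg y := by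
  simp [sg]

theorem wt_eq (l d : ℕ) (x : List (Fin (r + 1))) : wt l d x = x.length * l + sg x * d := by
  induction x with
  | nil => simp [wt, tl, sg]
  | cons c x ih =>
    rw [wt_cons, ih, sg_cons, List.length_cons]; ring

theorem sg_rep (n : ℕ) : sg (List.replicate n (0 : Fin (r + 1))) = 0 := by
  induction n with
  | zero => rfl
  | succ n ih => rw [List.replicate_succ, sg_cons, ih]; simp

theorem keyK {l d l' d' : ℕ} (hd : 0 < d) (hrl : r + 1 ≤ l')
    (hK : ∀ k s : ℕ, k * l = s * d → ∃ t, k = t * d' ∧ s = t * l')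
    (x : List (Fin (r + 1))) {i i' : ℕ} (hi : i' < i) (hir : i ≤ r)
    (h : wt l d x + i' * d = i * d) : False := by
  rw [wt_eq] at h
  have h1 : (sg x + i') * d ≤ i * d := by rw [add_mul]; omega
  have h2 : sg x + i' ≤ i := Nat.le_of_mul_le_mul_right h1 hd
  have h3 : x.length * l = (i - i' - sg x) * d := by
    have h4 : i = (i - i' - sg x) + sg x + i' := by omega
    have h5 : i * d = (i - i' - sg x) * d + sg x * d + i' * d := by
      conv_lhs => rw [h4]
      ring
    omega
  obtain ⟨t, ht1, ht2⟩ := hK _ _ h3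
  rcases Nat.eq_zero_or_pos t with h0 | h0
  · rw [h0, zero_mul] at ht1 ht2
    have hx : x = [] := List.length_eq_zero_iff.1 ht1
    rw [hx] at ht2
    have : sg ([] : List (Fin (r + 1))) = 0 := rfl
    rw [this] at ht2
    omega
  · have : l' ≤ t * l' := Nat.le_mul_of_pos_left l' h0
    omega

theorem share_tl {l d : ℕ} (hd : 0 < d) {t u : List (Fin (r + 1))}
    (h : Share (tl l d t) (tl l d u)) :
    ∃ (p q p' q' : List (Fin (r + 1))) (c : Fin (r + 1)), t = p ++ c :: q ∧ u = p' ++ c :: q' ∧
      wt l d p = wt l d p' := by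
  obtain ⟨L, R, L', R', x, h1, h2, h3⟩ := h
  rw [tl_eq] at h1 h2
  rw [List.map_eq_append_iff] at h1 h2
  obtain ⟨p, m, rfl, hl, hm⟩ := h1
  obtain ⟨p', m', rfl, hl', hm'⟩ := h2
  rw [List.map_eq_cons_iff] at hm hm'
  obtain ⟨c, q, rfl, hc, hr⟩ := hm
  obtain ⟨c', q', rfl, hc', hr'⟩ := hm'
  have hcc : c = c' := by
    have h4 : l + (c : ℕ) * d = l + (c' : ℕ) * d := hc.trans hc'.symm
    have h5 : (c : ℕ) * d = (c' : ℕ) * d := by omega
    exact Fin.ext (Nat.eq_of_mul_eq_mul_right hd h5)
  subst hcc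
  exact ⟨p, q, p', q', c, rfl, rfl, by unfold wt; rw [tl_eq, tl_eq, hl, hl']; exact h3⟩

theorem heads {l d : ℕ} (hl : 0 < l) (hd : 0 < d) {p q : List (Fin (r + 1))} {i i' : Fin (r + 1)}
    (hii : i ≠ i') (h : Share (tl l d (i :: p)) (tl l d (i' :: q))) :
    ∃ (a b a' b' : List (Fin (r + 1))) (c : Fin (r + 1)), p = a ++ c :: b ∧ q = a' ++ c :: b' ∧
      (i : ℕ) * d + wt l d a = (i' : ℕ) * d + wt l d a' := by
  obtain ⟨a, b, a', b', c, h1, h2, h3⟩ := share_tl hd h
  cases a with
  | nil =>
    cases a' with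
    | nil =>
      simp only [List.nil_append, List.cons.injEq] at h1 h2
      exact absurd (h1.1.trans h2.1.symm) hii
    | cons e a' =>
      rw [wt_cons, wt_nil] at h3
      omega
  | cons e a =>
    cases a' with
    | nil =>
      rw [wt_cons, wt_nil] at h3
      omega
    | cons f a' =>
      simp only [List.cons_append, List.cons.injEq] at h1 h2
      refine ⟨a, b, a', b', c, h1.2, h2.2, ?_⟩
      rw [wt_cons, wt_cons, ← h1.1, ← h2.1] at h3
      omega

theorem pre1 {A : Type} {w l r : List A} {c d : A} (h : w ++ [d] = l ++ c :: r) :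
    ∃ m, w = l ++ m := by
  rw [List.append_eq_append_iff] at h
  rcases h with ⟨as, h1, h2⟩ | ⟨bs, h1, h2⟩
  · cases as with
    | nil => exact ⟨[], by simpa using h1.symm⟩
    | cons e as =>
      exfalso
      have := congrArg List.length h2
      simp at this
  · exact ⟨bs, h1⟩

theorem split3 {A : Type} {u X V l r : List A} {c : A} (h : u ++ (X ++ V) = l ++ c :: r) :
    (∃ m, u = l ++ m) ∨ (∃ x1 x2, l = u ++ x1 ∧ X = x1 ++ c :: x2) ∨
      (∃ v1, l = u ++ (X ++ v1) ∧ V = v1 ++ c :: r) := by
  rw [List.append_eq_append_iff] at h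
  rcases h with ⟨as, h1, h2⟩ | ⟨bs, h1, h2⟩
  · rw [List.append_eq_append_iff] at h2
    rcases h2 with ⟨as2, h3, h4⟩ | ⟨bs, h3, h4⟩
    · right; right
      exact ⟨as2, by rw [h1, h3], h4⟩
    · cases bs with
      | nil =>
        right; right
        refine ⟨[], ?_, ?_⟩
        · rw [h1, h3]; simp
        · simpa using h4.symm
      | cons e bs =>
        right; left
        simp only [List.cons_append, List.cons.injEq] at h4
        exact ⟨as, bs, h1, by rw [h3, h4.1]⟩
  · left; exact ⟨bs, h1⟩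

/-- comparing two prefixes of the same word -/
theorem prefs {A : Type} {l l' m m' : List A} (h : l ++ m = l' ++ m') :
    (∃ x, l' = l ++ x) ∨ (∃ x, l = l' ++ x) := by
  rw [List.append_eq_append_iff] at h
  rcases h with ⟨as, h1, _⟩ | ⟨bs, h1, _⟩
  · left; exact ⟨as, h1⟩
  · right; exact ⟨bs, h1⟩

theorem cmp {l d l' d' : ℕ} (hd : 0 < d) (hrl : r + 1 ≤ l')
    (hK : ∀ k s : ℕ, k * l = s * d → ∃ t, k = t * d' ∧ s = t * l')
    {i i' : ℕ} (hi : i' < i) (hir : i ≤ r) {p p' m m' : List (Fin (r + 1))}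
    (h : p ++ m = p' ++ m') (hE : i * d + wt l d p = i' * d + wt l d p') : False := by
  rcases prefs h with ⟨x, rfl⟩ | ⟨x, rfl⟩
  · rw [wt_append] at hE
    exact keyK hd hrl hK x hi hir (by omega)
  · rw [wt_append] at hE
    have : i' * d < i * d := Nat.mul_lt_mul_of_pos_right hi hd
    omega

theorem general {l d l' d' : ℕ} (hl0 : 0 < l) (hd : 0 < d) (hrl : r + 1 ≤ l')
    (hK : ∀ k s : ℕ, k * l = s * d → ∃ t, k = t * d' ∧ s = t * l')
    (u v X X' : List (Fin (r + 1))) {i j i' j' : Fin (r + 1)}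
    (hij : (i : ℕ) + j = i' + j' + (r + 1))
    (hX : wt l d X' = wt l d X + (r + 1) * d)
    (h22 : ∀ x1 x2 x1' x2' : List (Fin (r + 1)), ∀ c : Fin (r + 1), X = x1 ++ c :: x2 →
      X' = x1' ++ c :: x2' → (i : ℕ) * d + wt l d x1 = (i' : ℕ) * d + wt l d x1' → False) :
    ¬ Share (tl l d (i :: (u ++ (X ++ (v ++ [j])))))
        (tl l d (i' :: (u ++ (X' ++ (v ++ [j']))))) := by
  intro h
  have hir : (i : ℕ) ≤ r := Nat.lt_succ_iff.1 i.2
  have hjr : (j : ℕ) ≤ r := Nat.lt_succ_iff.1 j.2
  have hii : (i' : ℕ) < i := by omega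
  have hjj : (j' : ℕ) < j := by omega
  have hne : i ≠ i' := by
    intro h0
    rw [h0] at hii
    exact lt_irrefl _ hii
  have hiid : (i' : ℕ) * d < (i : ℕ) * d := Nat.mul_lt_mul_of_pos_right hii hd
  have hird : (i : ℕ) * d ≤ r * d := Nat.mul_le_mul_right d hir
  have hexp : (r + 1) * d = r * d + d := by ring
  have hijd : (i : ℕ) * d + (j : ℕ) * d = (i' : ℕ) * d + (j' : ℕ) * d + (r + 1) * d := by
    rw [← add_mul, ← add_mul, ← add_mul, hij]
  obtain ⟨p, q, p', q', c, h1, h2, hE⟩ := heads hl0 hd hne h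
  rcases split3 h1 with ⟨m, hm⟩ | ⟨x1, x2, hl, hx⟩ | ⟨v1, hl, hv⟩
  · rcases split3 h2 with ⟨m', hm'⟩ | ⟨x1', x2', hl', hx'⟩ | ⟨v1', hl', hv'⟩
    · exact cmp hd hrl hK hii hir (hm.symm.trans hm') hE
    · rw [hm, List.append_assoc] at hl'
      exact cmp hd hrl hK hii hir (p := p) (p' := p') (m := m ++ x1') (m' := [])
        (by rw [List.append_nil]; exact hl'.symm) hE
    · rw [hm, List.append_assoc] at hl'
      exact cmp hd hrl hK hii hir (p := p) (p' := p') (m := m ++ (X' ++ v1')) (m' := [])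
        (by rw [List.append_nil]; exact hl'.symm) hE
  · rcases split3 h2 with ⟨m', hm'⟩ | ⟨x1', x2', hl', hx'⟩ | ⟨v1', hl', hv'⟩
    · rw [hl, hm', wt_append, wt_append] at hE
      omega
    · rw [hl, hl', wt_append, wt_append] at hE
      exact h22 x1 x2 x1' x2' c hx hx' (by omega)
    · rw [hl, hl', wt_append, wt_append, wt_append] at hE
      have h3 : wt l d X = wt l d x1 + ((l + (c : ℕ) * d) + wt l d x2) := by
        rw [hx, wt_append, wt_cons]
      omega
  · rcases split3 h2 with ⟨m', hm'⟩ | ⟨x1', x2', hl', hx'⟩ | ⟨v1', hl', hv'⟩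
    · rw [hl, hm', wt_append, wt_append, wt_append] at hE
      omega
    · rw [hl, hl', wt_append, wt_append, wt_append] at hE
      have h3 : wt l d X' = wt l d x1' + wt l d (c :: x2') := by
        rw [hx', wt_append]
      refine keyK hd hrl hK ((c :: x2') ++ v1) hjj hjr ?_
      rw [wt_append]
      omega
    · rw [hl, hl', wt_append, wt_append, wt_append, wt_append] at hE
      obtain ⟨m, hm⟩ := pre1 hv
      obtain ⟨m', hm'⟩ := pre1 hv'
      have hjjd : (j' : ℕ) * d < (j : ℕ) * d := Nat.mul_lt_mul_of_pos_right hjj hd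
      rcases prefs (hm.symm.trans hm') with ⟨x, rfl⟩ | ⟨x, rfl⟩
      · rw [wt_append] at hE
        omega
      · rw [wt_append] at hE
        exact keyK hd hrl hK x hjj hjr (by omega)

theorem wtA (l d : ℕ) {i j i' j' : Fin (r + 1)} (h : (i' : ℕ) + j' = i + j + (r + 1)) :
    wt l d [i', j'] = wt l d [i, j] + (r + 1) * d := by
  simp only [wt_cons, wt_nil]
  have h2 : (i' : ℕ) * d + (j' : ℕ) * d = (i : ℕ) * d + (j : ℕ) * d + (r + 1) * d := by
    rw [← add_mul, ← add_mul, ← add_mul, h]
  omega

theorem wtB {l d l' d' D e : ℕ} (h1 : l' * d = d' * l) (hD : D + (r + 1) = l')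
    (he : e + 1 = d') (X : List (Fin (r + 1))) (τ : Fin (r + 1)) (h : sg X = D + τ) :
    (X.length + e) * l + (l + (τ : ℕ) * d) = wt l d X + (r + 1) * d := by
  rw [wt_eq, h]
  have h2 : (X.length + e) * l + (l + (τ : ℕ) * d) = X.length * l + (e + 1) * l + τ * d := by ring
  rw [h2, he, ← h1, ← hD]
  ring

theorem wt_rep (l d n : ℕ) : wt l d (List.replicate n (0 : Fin (r + 1))) = n * l := by
  rw [wt_eq, sg_rep, List.length_replicate]
  ring

theorem part1 {l d l' d' : ℕ} (hl : 0 < l) (hd : 0 < d) (hrl : r + 1 ≤ l')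
    (hK : ∀ k s : ℕ, k * l = s * d → ∃ t, k = t * d' ∧ s = t * l')
    (w : List (Fin (r + 1))) (i j i' j' : Fin (r + 1)) (hii : (i' : ℕ) < i) :
    ¬ Share (tl l d (i :: w ++ [j])) (tl l d (i' :: w ++ [j'])) := by
  intro h
  have hne : i ≠ i' := by
    intro h0
    rw [h0] at hii
    exact lt_irrefl _ hii
  obtain ⟨p, q, p', q', c, h1, h2, hE⟩ := heads hl hd hne (p := w ++ [j]) (q := w ++ [j']) h
  obtain ⟨m, hm⟩ := pre1 h1
  obtain ⟨m', hm'⟩ := pre1 h2
  exact cmp hd hrl hK hii (Nat.lt_succ_iff.1 i.2) (hm.symm.trans hm') hE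

theorem share_symm {T U : List ℕ} (h : Share T U) : Share U T := by
  obtain ⟨L, R, L', R', x, h1, h2, h3⟩ := h
  exact ⟨L', R', L, R, x, h2, h1, h3.symm⟩

end Compat

open Compat

theorem t_COMPAT : S_COMPAT := by
  intro l d r l' d' D e hl hd h1 hD he hK
  have hrl : r + 1 ≤ l' := by omega
  refine ⟨?_, ?_, ?_⟩
  · intro w i j i' j' _ hne h
    rcases lt_or_gt_of_ne (fun h0 => hne (Fin.ext h0) : (i : ℕ) ≠ i') with h0 | h0
    · exact part1 hl hd hrl hK w i' j' i j h0 (share_symm h)
    · exact part1 hl hd hrl hK w i j i' j' h0 h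
  · intro w w' i j i' j' hw hij h
    have hir : (i : ℕ) ≤ r := Nat.lt_succ_iff.1 i.2
    have hjr : (j : ℕ) ≤ r := Nat.lt_succ_iff.1 j.2
    have hii : (i' : ℕ) < i := by omega
    have hiid : (i' : ℕ) * d < (i : ℕ) * d := Nat.mul_lt_mul_of_pos_right hii hd
    cases hw with
    | A x y a b a' b' hab =>
      refine general hl hd hrl hK x y [a, b] [a', b'] hij ?_ ?_ (by simpa [tl] using h)
      · exact wtA l d hab
      · intro x1 x2 x1' x2' c e1 e2 hE
        have hcase : ∀ (a b : Fin (r + 1)) (x1 x2 : List (Fin (r + 1))),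
            [a, b] = x1 ++ c :: x2 → (x1 = [] ∧ c = a) ∨ (x1 = [a] ∧ c = b) := by
          intro a b x1 x2 hx
          rcases x1 with _ | ⟨f, _ | ⟨g, x1⟩⟩
          · simp only [List.nil_append, List.cons.injEq] at hx
            exact Or.inl ⟨rfl, hx.1.symm⟩
          · simp only [List.cons_append, List.nil_append, List.cons.injEq] at hx
            exact Or.inr ⟨by rw [hx.1], hx.2.1.symm⟩
          · exfalso
            have := congrArg List.length hx
            simp at this
        rcases hcase a b x1 x2 e1 with ⟨g1, g2⟩ | ⟨g1, g2⟩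
        · rcases hcase a' b' x1' x2' e2 with ⟨k1, k2⟩ | ⟨k1, k2⟩
          · rw [g1, k1, wt_nil] at hE
            omega
          · rw [g1, k1, wt_nil] at hE
            exact keyK hd hrl hK [a'] hii hir (by omega)
        · rcases hcase a' b' x1' x2' e2 with ⟨k1, k2⟩ | ⟨k1, k2⟩
          · rw [g1, k1, wt_nil] at hE
            omega
          · have hbb : b = b' := g2.symm.trans k2
            rw [hbb] at hab
            have := a'.2
            omega
    | B x X y τ hs hp =>
      refine general hl hd hrl hK x y X (List.replicate (X.length + e) 0 ++ [τ]) hij ?_ ?_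
        (by simpa [tl] using h)
      · rw [wt_append, wt_rep, wt_cons, wt_nil, add_zero]
        exact wtB h1 hD he X τ hs
      · intro x1 x2 x1' x2' c e1 e2 hE
        obtain ⟨m, hm⟩ := pre1 e2
        have hx1' : x1' = List.replicate x1'.length 0 := by
          rw [List.eq_replicate_iff]
          refine ⟨rfl, fun f hf => ?_⟩
          have : f ∈ List.replicate (X.length + e) (0 : Fin (r + 1)) := by
            rw [hm]; simp [hf]
          exact List.eq_of_mem_replicate this
        have hsx : sg x1 ≤ D := hp x1 (c :: x2) e1 (by simp)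
        rw [hx1', wt_rep, wt_eq] at hE
        have hlen : x1.length < x1'.length := by
          by_contra hcon
          push Not at hcon
          have := Nat.mul_le_mul_right l hcon
          omega
        have h3 : (x1'.length - x1.length) * l = ((i : ℕ) - i' + sg x1) * d := by
          have e3 : x1'.length * l = (x1'.length - x1.length) * l + x1.length * l := by
            rw [← add_mul]; congr 1; omega
          have e4 : (i : ℕ) * d = ((i : ℕ) - i') * d + (i' : ℕ) * d := by
            rw [← add_mul]; congr 1; omega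
          rw [add_mul]
          omega
        obtain ⟨t, ht1, ht2⟩ := hK _ _ h3
        rcases Nat.eq_zero_or_pos t with h0 | h0
        · rw [h0, zero_mul] at ht2
          omega
        · have : l' ≤ t * l' := Nat.le_mul_of_pos_left l' h0
          omega
    | B' x X y τ hs hz =>
      refine general hl hd hrl hK x y X (τ :: List.replicate (X.length + e) 0) hij ?_ ?_
        (by simpa [tl] using h)
      · rw [wt_cons, wt_rep, add_comm]
        exact wtB h1 hD he X τ hs
      · intro x1 x2 x1' x2' c e1 e2 hE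
        cases x1' with
        | nil =>
          rw [wt_nil] at hE
          omega
        | cons f x1' =>
          simp only [List.cons_append, List.cons.injEq] at e2
          have hc0 : c ∈ List.replicate (X.length + e) (0 : Fin (r + 1)) := by
            rw [e2.2]; simp
          have hc1 : c ∈ X := by rw [e1]; simp
          exact hz c hc1 (List.eq_of_mem_replicate hc0)
  · intro w w' hw
    cases hw with
    | A x y i j i' j' h =>
      have := wtA l d h
      simp only [wt_append]
      omega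
    | B x X y τ h hp =>
      have := wtB h1 hD he X τ h
      simp only [wt_append, wt_rep, wt_cons, wt_nil, add_zero]
      omega
    | B' x X y τ h hz =>
      have := wtB h1 hD he X τ h
      simp only [wt_append, wt_rep, wt_cons]
      omega

end Pool.Agent.R527.AP
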