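import Pool.Agent.R527.AP.Defs

namespace Pool.Agent.R527.AP

theorem t_COUNT : S_OCC → S_CALC → S_KILL → S_LONG → S_COUNT := by
  intro hO hC hK hL r D e hr hD
  obtain ⟨o1, o2, o3, o4, o5⟩ := hO (Fin (r + 1))
  obtain ⟨c0, c1, c2, c3, c4⟩ := hC (Fin (r + 1)) (Mv r D e)
  obtain ⟨q, hq1, hq2⟩ : ∃ q : ℕ, D ≤ q * r ∧ q * r < D + r := by
    refine ⟨(D + (r - 1)) / r, ?_, ?_⟩
    · have h1 := Nat.div_add_mod (D + (r - 1)) r
      have h2 := Nat.mod_lt (D + (r - 1)) (show r > 0 by omega)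
      have h3 : (D + (r - 1)) / r * r = r * ((D + (r - 1)) / r) := Nat.mul_comm _ _
      omega
    · have h1 := Nat.div_add_mod (D + (r - 1)) r
      have h3 : (D + (r - 1)) / r * r = r * ((D + (r - 1)) / r) := Nat.mul_comm _ _
      omega
  obtain ⟨K, hK'⟩ := hL r D e q hr hD hq1 hq2
  have hC0 := hK r D e q hr hD hq1 hq2
  have csum : ∀ (s : Finset (Fin (r + 1))) (f : Fin (r + 1) → List (Fin (r + 1)) → ℤ),
      (∀ c, Ach (Mv r D e) (f c)) → Ach (Mv r D e) (fun w => ∑ c ∈ s, f c w) := by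
    intro s f hf
    induction s using Finset.induction_on with
    | empty => simpa using c0
    | insert a s ha ih =>
      refine c2 _ _ (c1 _ _ (hf a) ih) (fun w => ?_)
      rw [Finset.sum_insert ha]
  have good : ∀ (n : ℕ) (Y : List (Fin (r + 1))), K ≤ Y.length + n → ∃ (C1 : ℕ) (C2 : ℤ),
      Ach (Mv r D e)
        (fun w => (occ Y w : ℤ) - C1 * occ (List.replicate q (Fin.last r)) w - C2) := by
    intro n
    induction n with
    | zero =>
      intro Y hY
      exact ⟨1, 0, c2 _ _ (hK' Y (by simpa using hY)) (fun w => by simp)⟩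
    | succ n ih =>
      intro Y hY
      have h1 : ∀ c : Fin (r + 1), ∃ (C1 : ℕ) (C2 : ℤ), Ach (Mv r D e)
          (fun w => (occ (Y ++ [c]) w : ℤ) - C1 * occ (List.replicate q (Fin.last r)) w - C2) :=
        fun c => ih (Y ++ [c]) (by simp; omega)
      choose A1 A2 hA using h1
      refine ⟨∑ c, A1 c, ∑ c, A2 c + 1, c2 _ _ (csum Finset.univ _ hA) ?_⟩
      intro w
      have h : (occ Y w : ℤ) ≤ (∑ c : Fin (r + 1), (occ (Y ++ [c]) w : ℤ)) + 1 := by
        exact_mod_cast o2 Y w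
      rw [Finset.sum_sub_distrib, Finset.sum_sub_distrib, ← Finset.sum_mul]
      push_cast
      linarith
  obtain ⟨C1, C2, hG⟩ := good K [] (by simp)
  refine ⟨C2 - 1, c2 _ _ (c1 _ _ hG (c3 C1 _ hC0)) ?_⟩
  intro w
  have h := o1 w
  simp only [h]
  push_cast
  linarith

end Pool.Agent.R527.AP
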