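import Mathlib
import Pool.Agent.R527.TIL.Defs

/-!
Arithmetic progressions of tile lengths `{ℓ, ℓ+d, ..., ℓ+rd}`, `r+1 ≤ ℓ/gcd(ℓ,d)`.
Letters: `Fin (r+1)`; the letter `i` is the tile of length `ℓ + i d`.
-/

namespace Pool.Agent.R527.AP

open Pool.Agent.R527.TIL (Share IsTiling)

/-- Number of occurrences of `X` as a factor (contiguous block) of `w`
(positions `0, ..., w.length`, so `occ [] w = w.length + 1`). -/
def occ {A : Type} [DecidableEq A] (X : List A) : List A → ℕ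
  | [] => if X.isPrefixOf [] then 1 else 0
  | c :: w => (if X.isPrefixOf (c :: w) then 1 else 0) + occ X w

/-- `Ach Mv f`: `f` is bounded above by a nonnegative combination of
`occ X - occ X'` over moves `X → X'`. -/
def Ach {A : Type} [DecidableEq A] (Mv : List A → List A → Prop) (f : List A → ℤ) : Prop :=
  ∃ M : List (List A × List A), (∀ p ∈ M, Mv p.1 p.2) ∧
    ∀ w, f w ≤ (M.map fun p => ((occ p.1 w : ℤ) - (occ p.2 w : ℤ))).sum

/-- Sum of the letters (as numbers `0..r`). -/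
def sg {r : ℕ} (w : List (Fin (r + 1))) : ℕ := (w.map fun c => (c : ℕ)).sum

/-- The tile lengths. -/
def tl (l d : ℕ) {r : ℕ} (w : List (Fin (r + 1))) : List ℕ := w.map fun c => l + (c : ℕ) * d

/-- Total length. -/
def wt (l d : ℕ) {r : ℕ} (w : List (Fin (r + 1))) : ℕ := (tl l d w).sum

/-- The elementary moves. Parameters: `r`, `D` (= `ℓ' - r - 1`), `e` (= `d' - 1`). -/
inductive Mv (r D e : ℕ) : List (Fin (r + 1)) → List (Fin (r + 1)) → Prop
  | A (x y : List (Fin (r + 1))) (i j i' j' : Fin (r + 1))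
      (h : (i' : ℕ) + j' = i + j + (r + 1)) : Mv r D e (x ++ [i, j] ++ y) (x ++ [i', j'] ++ y)
  | B (x X y : List (Fin (r + 1))) (τ : Fin (r + 1)) (h : sg X = D + τ)
      (hp : ∀ X1 X2, X = X1 ++ X2 → X2 ≠ [] → sg X1 ≤ D) :
      Mv r D e (x ++ X ++ y) (x ++ (List.replicate (X.length + e) 0 ++ [τ]) ++ y)
  | B' (x X y : List (Fin (r + 1))) (τ : Fin (r + 1)) (h : sg X = D + τ)
      (hz : ∀ c ∈ X, c ≠ 0) :
      Mv r D e (x ++ X ++ y) (x ++ (τ :: List.replicate (X.length + e) 0) ++ y)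

/-! ### Statements of the pieces -/

/-- Piece OCC: basic facts on `occ`. -/
def S_OCC : Prop :=
  ∀ (A : Type) [DecidableEq A] [Fintype A],
  (∀ w : List A, occ [] w = w.length + 1) ∧
  (∀ (Y w : List A), occ Y w ≤ (∑ c : A, occ (Y ++ [c]) w) + 1) ∧
  (∀ (c c' : A) (Y w : List A), c ≠ c' → occ (c :: Y) w + occ (c' :: Y) w ≤ occ Y w) ∧
  (∀ x Y y w : List A, occ (x ++ Y ++ y) w ≤ occ Y w) ∧
  (∀ Y u Z Z' v : List A, occ Y (u ++ Z ++ v) ≤ occ Y (u ++ Z' ++ v) + Z.length + Y.length)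

/-- Piece CALC: closure properties of `Ach`. -/
def S_CALC : Prop :=
  ∀ (A : Type) [DecidableEq A] (Mv : List A → List A → Prop),
  (Ach Mv (fun _ => 0)) ∧
  (∀ f g, Ach Mv f → Ach Mv g → Ach Mv (fun w => f w + g w)) ∧
  (∀ f g, Ach Mv f → (∀ w, g w ≤ f w) → Ach Mv g) ∧
  (∀ (n : ℕ) f, Ach Mv f → Ach Mv (fun w => (n : ℤ) * f w)) ∧
  (∀ X X', Mv X X' → Ach Mv (fun w => (occ X w : ℤ) - occ X' w))

/-- Piece CARRY: the carry chain `c 0^m → r^m (c+m)` (addition in `Fin (r+1)`). -/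
def S_CARRY : Prop :=
  ∀ r D e : ℕ, 1 ≤ r → ∀ (m : ℕ) (c : Fin (r + 1)) (x y : List (Fin (r + 1))),
    Ach (Mv r D e) (fun w =>
      (occ (x ++ (c :: List.replicate m 0) ++ y) w : ℤ)
        - occ (x ++ (List.replicate m (Fin.last r) ++ [c + Fin.ofNat (r + 1) m]) ++ y) w)

/-- Piece LONG: every long word has a chain ending in a word containing `r^q`,
`q = ⌈D/r⌉`. -/
def S_LONG : Prop :=
  ∀ r D e q : ℕ, 1 ≤ r → 1 ≤ D → D ≤ q * r → q * r < D + r →
    ∃ K : ℕ, ∀ Y : List (Fin (r + 1)), K ≤ Y.length →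
      Ach (Mv r D e) (fun w => (occ Y w : ℤ) - occ (List.replicate q (Fin.last r)) w)

/-- Piece KILL: the factor `r^q` is cheap. -/
def S_KILL : Prop :=
  ∀ r D e q : ℕ, 1 ≤ r → 1 ≤ D → D ≤ q * r → q * r < D + r →
    Ach (Mv r D e) (fun w => (occ (List.replicate q (Fin.last r)) w : ℤ))

/-- Piece COUNT: the length is bounded by an achievable function. -/
def S_COUNT : Prop :=
  ∀ r D e : ℕ, 1 ≤ r → 1 ≤ D → ∃ C : ℤ, Ach (Mv r D e) (fun w => (w.length : ℤ) - C)

/-- Piece MATCH (generic): from the counting statement to an injection along moves. -/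
def S_MATCH : Prop :=
  ∀ (A : Type) [DecidableEq A] [Fintype A] (Mv : List A → List A → Prop) (len : A → ℕ),
    (∀ c, 0 < len c) →
    (∀ u v X X', Mv X X' → Mv (u ++ X ++ v) (u ++ X' ++ v)) →
    (∃ C : ℤ, Ach Mv (fun w => (w.length : ℤ) - C)) →
    ∃ m0 : ℕ, ∀ m ≥ m0, ∃ Φ : List A → List A,
      Set.InjOn Φ {w | (w.map len).sum = m} ∧ ∀ w, (w.map len).sum = m → Mv w (Φ w)

/-- Piece COMPAT. `l' = l / gcd`, `d' = d / gcd` are given through their properties:
`l' * d = d' * l`, and an equation `k*l = s*d` forces `d' ∣ k` and `l' ∣ s` (with the same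
quotient). -/
def S_COMPAT : Prop :=
  ∀ l d r l' d' D e : ℕ, 0 < l → 0 < d → l' * d = d' * l → D + (r + 1) = l' → e + 1 = d' →
    (∀ k s : ℕ, k * l = s * d → ∃ t, k = t * d' ∧ s = t * l') →
    -- copies at a nonzero shift of at most `r` steps share no tile
    (∀ (w : List (Fin (r + 1))) (i j i' j' : Fin (r + 1)), (i : ℕ) + j = i' + j' → i ≠ i' →
      ¬ Share (tl l d (i :: w ++ [j])) (tl l d (i' :: w ++ [j']))) ∧
    -- moves
    (∀ (w w' : List (Fin (r + 1))) (i j i' j' : Fin (r + 1)), Mv r D e w w' →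
      (i : ℕ) + j = i' + j' + (r + 1) →
      ¬ Share (tl l d (i :: w ++ [j])) (tl l d (i' :: w' ++ [j']))) ∧
    -- lengths
    (∀ (w w' : List (Fin (r + 1))), Mv r D e w w' → wt l d w' = wt l d w + (r + 1) * d)

/-- The arithmetic progression of tile lengths. -/
def Lam (l d r : ℕ) : Finset ℕ := (Finset.range (r + 1)).image fun i => l + i * d

/-- Piece FINAL: the theorem for arithmetic progressions. -/
def S_FINAL : Prop :=
  ∀ l d r : ℕ, 0 < l → 0 < d → 1 ≤ r → (r + 1) * Nat.gcd l d ≤ l →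
    ∃ N : ℕ, ∀ n ≥ N, ∀ F : Finset (List ℕ), (∀ T ∈ F, IsTiling (Lam l d r) n T) →
      (∀ T ∈ F, ∀ U ∈ F, T ≠ U → Share T U) →
      F.card ≤ Set.ncard {T | IsTiling (Lam l d r) (n - l) T}

end Pool.Agent.R527.AP
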