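import Pool.Agent.R527.AP.Defs

namespace Pool.Agent.R527.AP

open Pool.Agent.R527.TIL (Share IsTiling)

namespace FinalAux

variable {l d r : ℕ}

theorem tl_eq (w : List (Fin (r + 1))) :
    tl l d w = w.map (fun c : Fin (r + 1) => l + (c : ℕ) * d) := by
  unfold tl
  induction w with
  | nil => rfl
  | cons c w ih =>
    rw [List.map_cons, ← ih]
    simp

theorem exists_word (T : List ℕ) (h : ∀ x ∈ T, x ∈ Lam l d r) :
    ∃ w : List (Fin (r + 1)), tl l d w = T := by
  induction T with
  | nil => exact ⟨[], rfl⟩
  | cons x T ih =>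
    obtain ⟨w, hw⟩ := ih fun y hy => h y (List.mem_cons_of_mem _ hy)
    have hx := h x List.mem_cons_self
    unfold Lam at hx
    rw [Finset.mem_image] at hx
    obtain ⟨i, hi, hix⟩ := hx
    rw [Finset.mem_range] at hi
    refine ⟨⟨i, hi⟩ :: w, ?_⟩
    rw [tl_eq] at hw ⊢
    rw [List.map_cons, hw]
    simp only
    rw [hix]

theorem mem_tl {w : List (Fin (r + 1))} {x : ℕ} (h : x ∈ tl l d w) : x ∈ Lam l d r := by
  rw [tl_eq, List.mem_map] at h
  obtain ⟨c, -, hc⟩ := h
  unfold Lam
  rw [Finset.mem_image]
  exact ⟨c, Finset.mem_range.2 c.2, hc⟩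

theorem tl_inj (hd : 0 < d) : Function.Injective (tl l d (r := r)) := by
  have h0 : tl l d (r := r) = List.map (fun c : Fin (r + 1) => l + (c : ℕ) * d) :=
    funext tl_eq
  rw [h0, List.map_injective_iff]
  intro c c' h
  apply Fin.ext
  have h1 : (c : ℕ) * d = (c' : ℕ) * d := by
    simp only at h
    omega
  exact Nat.eq_of_mul_eq_mul_right hd h1

theorem length_le (hl : 0 < l) (w : List (Fin (r + 1))) : w.length ≤ wt l d w := by
  unfold wt
  rw [tl_eq]
  induction w with
  | nil => simp
  | cons c w ih =>
    rw [List.map_cons, List.sum_cons, List.length_cons]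
    omega

theorem le_B (i : Fin (r + 1)) : (i : ℕ) * d ≤ r * d :=
  Nat.mul_le_mul_right d (by omega)

theorem tl_ends (w : List (Fin (r + 1))) (i j : Fin (r + 1)) :
    (tl l d (i :: w ++ [j])).sum = (l + i * d) + wt l d w + (l + j * d) := by
  unfold wt tl
  simp
  omega

theorem tl_end (w : List (Fin (r + 1))) (j : Fin (r + 1)) :
    (tl l d (w ++ [j])).sum = wt l d w + (l + j * d) := by
  unfold wt tl
  simp

theorem ends {n : ℕ} {T : List ℕ} (hT : IsTiling (Lam l d r) n T) (hn : 2 * (l + r * d) + 1 ≤ n) :
    ∃ (i j : Fin (r + 1)) (w : List (Fin (r + 1))), T = tl l d (i :: w ++ [j]) ∧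
      (l + i * d) + wt l d w + (l + j * d) = n := by
  obtain ⟨h1, h2⟩ := hT
  obtain ⟨W, hW⟩ := exists_word T h1
  rcases W with _ | ⟨i, W'⟩
  · rw [← hW] at h2
    unfold tl at h2
    simp at h2
    omega
  rcases List.eq_nil_or_concat W' with rfl | ⟨w, j, rfl⟩
  · rw [← hW] at h2
    unfold tl at h2
    simp at h2
    have := le_B (d := d) i
    omega
  refine ⟨i, j, w, ?_, ?_⟩
  · rw [← hW]
    simp
  · rw [← tl_ends]
    rw [← h2, ← hW]
    simp

end FinalAux

open FinalAux in
theorem t_FINAL : S_COUNT → S_MATCH → S_COMPAT → S_FINAL := by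
  intro hCount hMatch hCompat l d r hl hd hr hgl
  set g := Nat.gcd l d with hg
  have hg0 : 0 < g := Nat.gcd_pos_of_pos_left d hl
  obtain ⟨l', hl'⟩ : g ∣ l := Nat.gcd_dvd_left l d
  obtain ⟨d', hd'⟩ : g ∣ d := Nat.gcd_dvd_right l d
  have hcop : Nat.Coprime l' d' := by
    have h1 := Nat.coprime_div_gcd_div_gcd (m := l) (n := d) hg0
    rw [← hg] at h1
    rwa [show l / g = l' by rw [hl']; exact Nat.mul_div_cancel_left _ hg0,
      show d / g = d' by rw [hd']; exact Nat.mul_div_cancel_left _ hg0] at h1
  have hd'0 : 0 < d' := by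
    rcases Nat.eq_zero_or_pos d' with h | h
    · rw [h] at hd'
      omega
    · exact h
  have hr1 : r + 1 ≤ l' := by
    have h1 : g * (r + 1) ≤ g * l' := by
      rw [← hl', mul_comm]
      exact hgl
    exact Nat.le_of_mul_le_mul_left h1 hg0
  have heq : l' * d = d' * l := by
    calc l' * d = l' * (g * d') := by rw [← hd']
      _ = d' * (g * l') := by ring
      _ = d' * l := by rw [← hl']
  have hks : ∀ k s : ℕ, k * l = s * d → ∃ t, k = t * d' ∧ s = t * l' := by
    intro k s h
    have h1 : k * l' = s * d' := by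
      have h2 : g * (k * l') = g * (s * d') := by
        calc g * (k * l') = k * (g * l') := by ring
          _ = k * l := by rw [← hl']
          _ = s * d := h
          _ = s * (g * d') := by rw [← hd']
          _ = g * (s * d') := by ring
      exact Nat.eq_of_mul_eq_mul_left hg0 h2
    have h3 : d' ∣ k * l' := ⟨s, by rw [h1, mul_comm]⟩
    have h4 : d' ∣ k := hcop.symm.dvd_of_dvd_mul_right h3
    obtain ⟨t, ht⟩ := h4
    refine ⟨t, by rw [ht, mul_comm], ?_⟩
    rw [ht] at h1
    have h5 : s * d' = (t * l') * d' := by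
      rw [← h1]
      ring
    exact Nat.eq_of_mul_eq_mul_right hd'0 h5
  obtain ⟨c1, c2, c3⟩ := hCompat l d r l' d' (l' - (r + 1)) (d' - 1) hl hd heq (by omega)
    (by omega) hks
  set D := l' - (r + 1) with hD
  set e := d' - 1 with he
  -- the injection along moves
  have hPhi : ∃ m0 : ℕ, ∀ m ≥ m0, ∃ Φ : List (Fin (r + 1)) → List (Fin (r + 1)),
      Set.InjOn Φ {w | wt l d w = m} ∧ ∀ w, wt l d w = m → Mv r D e w (Φ w) := by
    rcases Nat.eq_zero_or_pos D with h0 | h0
    · refine ⟨0, fun m _ => ⟨fun w => (List.replicate e 0 ++ [0]) ++ w, ?_, ?_⟩⟩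
      · intro w _ w' _ h
        exact List.append_cancel_left h
      · intro w _
        have h1 := Mv.B (r := r) (D := D) (e := e) [] [] w 0 (by simp [sg, h0])
          (by
            intro X1 X2 h h'
            have := List.append_eq_nil_iff.1 h.symm
            exact absurd this.2 h')
        simpa using h1
    · have h1 := hMatch (Fin (r + 1)) (Mv r D e) (fun c => l + (c : ℕ) * d)
        (fun c => by omega) (by
          intro u v X X' h
          cases h with
          | A x y i j i' j' h =>
            have := Mv.A (r := r) (D := D) (e := e) (u ++ x) (y ++ v) i j i' j' h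
            simpa [List.append_assoc] using this
          | B x X y τ h hp =>
            have := Mv.B (r := r) (D := D) (e := e) (u ++ x) X (y ++ v) τ h hp
            simpa [List.append_assoc] using this
          | B' x X y τ h hz =>
            have := Mv.B' (r := r) (D := D) (e := e) (u ++ x) X (y ++ v) τ h hz
            simpa [List.append_assoc] using this)
        (hCount r D e hr h0)
      simp only [wt, tl_eq]
      exact h1
  obtain ⟨m0, hm0⟩ := hPhi
  refine ⟨m0 + 2 * (l + r * d) + 1, fun n hn F hF hShare => ?_⟩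
  choose! Φ hΦinj hΦ using hm0
  set S : Set (List ℕ) := {T | IsTiling (Lam l d r) (n - l) T} with hS
  have hfin : S.Finite := by
    have h1 : (tl l d '' {w : List (Fin (r + 1)) | w.length ≤ n}).Finite :=
      (List.finite_length_le (Fin (r + 1)) n).image _
    refine h1.subset ?_
    intro T hT
    obtain ⟨w, hw⟩ := exists_word T hT.1
    refine ⟨w, ?_, hw⟩
    have h2 := length_le (d := d) hl w
    have h3 : wt l d w = n - l := by
      unfold wt
      rw [hw]
      exact hT.2
    show w.length ≤ n
    omega
  -- the relation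
  let Rel : List ℕ → List ℕ → Prop := fun T R =>
    ∃ (i j k : Fin (r + 1)) (w : List (Fin (r + 1))), T = tl l d (i :: w ++ [j]) ∧
      (l + i * d) + wt l d w + (l + j * d) = n ∧
      (((k : ℕ) = i + j ∧ R = tl l d (w ++ [k])) ∨
        ((k : ℕ) + (r + 1) = i + j ∧ R = tl l d (Φ (wt l d w) w ++ [k])))
  have hwtm : ∀ (i j : Fin (r + 1)) (w : List (Fin (r + 1))),
      (l + i * d) + wt l d w + (l + j * d) = n → wt l d w ≥ m0 := by
    intro i j w h
    have h1 := le_B (d := d) i
    have h2 := le_B (d := d) j
    omega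
  have hex : ∀ T ∈ F, ∃ R ∈ S, Rel T R := by
    intro T hT
    obtain ⟨i, j, w, hTe, hsum⟩ := ends (hF T hT) (by omega)
    by_cases hij : (i : ℕ) + j < r + 1
    · refine ⟨tl l d (w ++ [⟨i + j, hij⟩]), ⟨fun x hx => mem_tl hx, ?_⟩,
        i, j, ⟨i + j, hij⟩, w, hTe, hsum, Or.inl ⟨rfl, rfl⟩⟩
      rw [tl_end]
      simp only
      rw [add_mul]
      omega
    · have hk : (i : ℕ) + j - (r + 1) < r + 1 := by
        have h1 := i.2
        have h2 := j.2
        omega
      refine ⟨tl l d (Φ (wt l d w) w ++ [⟨i + j - (r + 1), hk⟩]), ⟨fun x hx => mem_tl hx, ?_⟩,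
        i, j, ⟨i + j - (r + 1), hk⟩, w, hTe, hsum, Or.inr ⟨by simp only; omega, rfl⟩⟩
      rw [tl_end]
      have hmv := hΦ (wt l d w) (hwtm i j w hsum) w rfl
      have hc3 := c3 w _ hmv
      simp only
      have h4 : ((i : ℕ) + j - (r + 1)) * d + (r + 1) * d = i * d + j * d := by
        rw [← add_mul, ← add_mul]
        congr 1
        omega
      omega
  choose! θ hθS hθR using hex
  have hinj : Set.InjOn θ (F : Set (List ℕ)) := by
    intro T hT U hU h
    by_contra hne
    have s1 := hShare T hT U hU hne
    have s2 := hShare U hU T hT (Ne.symm hne)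
    obtain ⟨i, j, k, w, e1, m1, r1⟩ := hθR T hT
    obtain ⟨i', j', k', w', e2, m2, r2⟩ := hθR U hU
    rw [h] at r1
    -- same middle word
    have same : (i : ℕ) + j = i' + j' → w = w' → False := by
      intro h1 h2
      subst h2
      by_cases hi : i = i'
      · subst hi
        have hj : j = j' := Fin.ext (by omega)
        subst hj
        exact hne (e1.trans e2.symm)
      · apply c1 w i j i' j' h1 hi
        rw [← e1, ← e2]
        exact s1
    rcases r1 with ⟨k1, f1⟩ | ⟨k1, f1⟩
    · rcases r2 with ⟨k2, f2⟩ | ⟨k2, f2⟩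
      · rw [f1] at f2
        have h3 := tl_inj hd f2
        have h4 := List.append_inj_left' h3 rfl
        have h5 := List.append_inj_right' h3 rfl
        rw [List.singleton_inj] at h5
        subst h5
        exact same (by omega) h4
      · rw [f1] at f2
        have h3 := tl_inj hd f2
        have h4 := List.append_inj_left' h3 rfl
        have h5 := List.append_inj_right' h3 rfl
        rw [List.singleton_inj] at h5
        subst h5
        have hmv := hΦ (wt l d w') (hwtm i' j' w' m2) w' rfl
        apply c2 w' (Φ (wt l d w') w') i' j' i j hmv (by omega)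
        rw [← h4, ← e1, ← e2]
        exact s2
    · rcases r2 with ⟨k2, f2⟩ | ⟨k2, f2⟩
      · rw [f1] at f2
        have h3 := tl_inj hd f2
        have h4 := List.append_inj_left' h3 rfl
        have h5 := List.append_inj_right' h3 rfl
        rw [List.singleton_inj] at h5
        subst h5
        have hmv := hΦ (wt l d w) (hwtm i j w m1) w rfl
        apply c2 w (Φ (wt l d w) w) i j i' j' hmv (by omega)
        rw [h4, ← e1, ← e2]
        exact s1
      · rw [f1] at f2
        have h3 := tl_inj hd f2
        have h4 := List.append_inj_left' h3 rfl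
        have h5 := List.append_inj_right' h3 rfl
        rw [List.singleton_inj] at h5
        subst h5
        have hij : (i : ℕ) + j = i' + j' := by omega
        have hd2 : (i : ℕ) * d + j * d = i' * d + j' * d := by
          rw [← add_mul, ← add_mul, hij]
        have hww : wt l d w' = wt l d w := by omega
        rw [hww] at h4
        exact same hij (hΦinj (wt l d w) (hwtm i j w m1) rfl hww h4)
  calc F.card = (F : Set (List ℕ)).ncard := (Set.ncard_coe_finset F).symm
    _ = (θ '' (F : Set (List ℕ))).ncard := hinj.ncard_image.symm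
    _ ≤ S.ncard := by
        refine Set.ncard_le_ncard ?_ hfin
        rintro _ ⟨T, hT, rfl⟩
        exact hθS T hT

end Pool.Agent.R527.AP
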