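import Pool.Agent.R527.AP.Defs

namespace Pool.Agent.R527.AP

/-- `f^S`. -/
def fpow {A : Type} (f : List A) : ℕ → List A
  | 0 => []
  | S + 1 => f ++ fpow f S

theorem fpow_succ' {A : Type} (f : List A) (S : ℕ) : fpow f (S + 1) = fpow f S ++ f := by
  induction S with
  | zero => simp [fpow]
  | succ S ih =>
    rw [fpow, ih, ← List.append_assoc, ← fpow, ih]

theorem length_fpow {A : Type} (f : List A) (hf : 1 ≤ f.length) (S : ℕ) :
    S ≤ (fpow f S).length := by
  induction S with
  | zero => simp
  | succ S ih =>
    rw [fpow, List.length_append]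
    omega

theorem sg_replicate {r : ℕ} (n : ℕ) (c : Fin (r + 1)) : sg (List.replicate n c) = n * (c : ℕ) := by
  have h : ∀ w : List (Fin (r + 1)), sg w = (w.map Fin.val).sum := by
    intro w
    unfold sg
    induction w with
    | nil => rfl
    | cons a w ih => simpa using ih
  rw [h, List.map_replicate, List.sum_replicate, smul_eq_mul]

theorem t_KILL : S_OCC → S_CALC → S_CARRY → S_LONG → S_KILL := by
  intro hO hC hCarry hLong r D e q hr hD hDq hqD
  obtain ⟨-, -, o3, o4, -⟩ := hO (Fin (r + 1))
  obtain ⟨h0, h1, h2, h3, h4⟩ := hC (Fin (r + 1)) (Mv r D e)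
  have hq : 1 ≤ q := by
    rcases Nat.eq_zero_or_pos q with h | h
    · subst h; omega
    · exact h
  set R : Fin (r + 1) := Fin.last r with hR
  have hR0 : R ≠ 0 := by
    intro h
    have := congrArg Fin.val h
    simp [hR] at this
    omega
  set τ : Fin (r + 1) := ⟨q * r - D, by omega⟩ with hτ
  -- the basic chain
  have star : ∀ (x y : List (Fin (r + 1))) (m k : ℕ), m + k = q + e →
      Ach (Mv r D e) (fun w => (occ (x ++ List.replicate q R ++ y) w : ℤ)
        - occ (x ++ (List.replicate m R ++ [τ + Fin.ofNat (r + 1) m]) ++
            (List.replicate k 0 ++ y)) w) := by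
    intro x y m k hmk
    have hmv := Mv.B' (r := r) (D := D) (e := e) x (List.replicate q R) y τ
      (by rw [sg_replicate, hR, hτ]; simp; omega)
      (by intro c hc; rw [List.eq_of_mem_replicate hc]; exact hR0)
    have a1 := h4 _ _ hmv
    have a2 := hCarry r D e hr m τ x (List.replicate k 0 ++ y)
    refine h2 _ _ (h1 _ _ a1 a2) (fun w => ?_)
    have e1 : x ++ (τ :: List.replicate ((List.replicate q R).length + e) 0) ++ y
        = x ++ (τ :: List.replicate m 0) ++ (List.replicate k 0 ++ y) := by
      rw [List.length_replicate, ← hmk, List.replicate_add]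
      simp only [List.append_assoc, List.cons_append]
    rw [e1]
    linarith
  -- the claim
  have claim : ∃ (f' : List (Fin (r + 1))) (z : Fin (r + 1)), z ≠ R ∧
      ∀ v, Ach (Mv r D e) (fun w => (occ (List.replicate q R ++ v) w : ℤ)
        - occ (List.replicate q R ++ ((f' ++ [z]) ++ v)) w) := by
    by_cases hc : τ + Fin.ofNat (r + 1) (q + e) = R
    · -- case c = R
      obtain ⟨m, hm⟩ : ∃ m, q + e = m + 1 := ⟨q + e - 1, by omega⟩
      refine ⟨[τ + Fin.ofNat (r + 1) m], 0, hR0.symm, fun v => ?_⟩
      have a1 := star [] v (q + e) 0 rfl
      have a2 := star [R] v m 1 hm.symm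
      refine h2 _ _ (h1 _ _ a1 a2) (fun w => ?_)
      rw [hc]
      have i1 : occ ([] ++ (List.replicate (q + e) R ++ [R]) ++ (List.replicate 0 0 ++ v)) w
          ≤ occ ([R] ++ List.replicate q R ++ v) w := by
        have := o4 (List.replicate e R) ([R] ++ List.replicate q R ++ v) [] w
        have e1 : List.replicate e R ++ ([R] ++ List.replicate q R ++ v) ++ []
            = [] ++ (List.replicate (q + e) R ++ [R]) ++ (List.replicate 0 0 ++ v) := by
          rw [List.append_nil, List.nil_append, List.replicate_zero, List.nil_append,
            ← List.append_assoc]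
          congr 1
          have : [R] = List.replicate 1 R := rfl
          rw [this, ← List.replicate_add, ← List.replicate_add, ← List.replicate_add]
          congr 1
          omega
        rw [e1] at this
        exact this
      have i2 : occ ([R] ++ (List.replicate m R ++ [τ + Fin.ofNat (r + 1) m]) ++
            (List.replicate 1 0 ++ v)) w ≤
          occ (List.replicate q R ++ (([τ + Fin.ofNat (r + 1) m] ++ [0]) ++ v)) w := by
        have := o4 (List.replicate e R)
          (List.replicate q R ++ (([τ + Fin.ofNat (r + 1) m] ++ [0]) ++ v)) [] w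
        have e1 : List.replicate e R ++
            (List.replicate q R ++ (([τ + Fin.ofNat (r + 1) m] ++ [0]) ++ v)) ++ []
            = [R] ++ (List.replicate m R ++ [τ + Fin.ofNat (r + 1) m]) ++
              (List.replicate 1 0 ++ v) := by
          have e2 : List.replicate e R ++ List.replicate q R = [R] ++ List.replicate m R := by
            have : [R] = List.replicate 1 R := rfl
            rw [this, ← List.replicate_add, ← List.replicate_add]
            congr 1
            omega
          rw [List.append_nil, ← List.append_assoc, e2]
          simp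
        rw [e1] at this
        exact this
      have i1' : (occ ([] ++ (List.replicate (q + e) R ++ [R]) ++ (List.replicate 0 0 ++ v)) w : ℤ)
          ≤ occ ([R] ++ List.replicate q R ++ v) w := by exact_mod_cast i1
      have i2' : (occ ([R] ++ (List.replicate m R ++ [τ + Fin.ofNat (r + 1) m]) ++
            (List.replicate 1 0 ++ v)) w : ℤ) ≤
          occ (List.replicate q R ++ (([τ + Fin.ofNat (r + 1) m] ++ [0]) ++ v)) w := by
        exact_mod_cast i2
      simp only [List.nil_append] at i1' ⊢
      linarith
    · refine ⟨[], τ + Fin.ofNat (r + 1) (q + e), hc, fun v => ?_⟩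
      have a1 := star [] v (q + e) 0 rfl
      refine h2 _ _ a1 (fun w => ?_)
      have i1 : occ ([] ++ (List.replicate (q + e) R ++ [τ + Fin.ofNat (r + 1) (q + e)]) ++
            (List.replicate 0 0 ++ v)) w
          ≤ occ (List.replicate q R ++ (([] ++ [τ + Fin.ofNat (r + 1) (q + e)]) ++ v)) w := by
        have := o4 (List.replicate e R)
          (List.replicate q R ++ (([] ++ [τ + Fin.ofNat (r + 1) (q + e)]) ++ v)) [] w
        have e1 : List.replicate e R ++
            (List.replicate q R ++ (([] ++ [τ + Fin.ofNat (r + 1) (q + e)]) ++ v)) ++ []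
            = [] ++ (List.replicate (q + e) R ++ [τ + Fin.ofNat (r + 1) (q + e)]) ++
              (List.replicate 0 0 ++ v) := by
          have e2 : List.replicate e R ++ List.replicate q R = List.replicate (q + e) R := by
            rw [← List.replicate_add]
            congr 1
            omega
          rw [List.append_nil, ← List.append_assoc, e2]
          simp
        rw [e1] at this
        exact this
      have i1' : (occ ([] ++ (List.replicate (q + e) R ++ [τ + Fin.ofNat (r + 1) (q + e)]) ++
            (List.replicate 0 0 ++ v)) w : ℤ)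
          ≤ occ (List.replicate q R ++ (([] ++ [τ + Fin.ofNat (r + 1) (q + e)]) ++ v)) w := by
        exact_mod_cast i1
      have e3 : ([] : List (Fin (r + 1))) ++ List.replicate q R ++ v
        = List.replicate q R ++ v := by simp
      rw [e3]
      linarith
  obtain ⟨f', z, hz, hcl⟩ := claim
  set f : List (Fin (r + 1)) := f' ++ [z] with hf
  have hflen : 1 ≤ f.length := by rw [hf, List.length_append]; simp
  have iter : ∀ S : ℕ, Ach (Mv r D e) (fun w => (occ (List.replicate q R) w : ℤ)
        - occ (List.replicate q R ++ fpow f S) w) := by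
    intro S
    induction S with
    | zero =>
      refine h2 _ _ h0 (fun w => ?_)
      simp [fpow]
    | succ S ih =>
      refine h2 _ _ (h1 _ _ ih (hcl (fpow f S))) (fun w => ?_)
      rw [fpow]
      linarith
  obtain ⟨K, hK⟩ := hLong r D e q hr hD hDq hqD
  have a1 := hK (fpow f K) (length_fpow f hflen K)
  have a2 := h3 2 _ (iter (K + 1))
  refine h2 _ _ (h1 _ _ a2 a1) (fun w => ?_)
  have b1 := o3 R z (fpow f K) w hz.symm
  have b2 : occ (List.replicate q R ++ fpow f (K + 1)) w ≤ occ (R :: fpow f K) w := by
    have := o4 (List.replicate (q - 1) R) (R :: fpow f K) f w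
    have e1 : List.replicate (q - 1) R ++ (R :: fpow f K) ++ f
        = List.replicate q R ++ fpow f (K + 1) := by
      rw [fpow_succ']
      have e2 : List.replicate q R = List.replicate (q - 1) R ++ [R] := by
        rw [← List.replicate_succ']
        congr 1
        omega
      rw [e2]
      simp
    rw [e1] at this
    exact this
  have b3 : occ (List.replicate q R ++ fpow f (K + 1)) w ≤ occ (z :: fpow f K) w := by
    have := o4 (List.replicate q R ++ f') (z :: fpow f K) [] w
    have e1 : List.replicate q R ++ f' ++ (z :: fpow f K) ++ []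
        = List.replicate q R ++ fpow f (K + 1) := by
      rw [fpow, hf]
      simp
    rw [e1] at this
    exact this
  have key : 2 * (occ (List.replicate q R ++ fpow f (K + 1)) w : ℤ) ≤ occ (fpow f K) w := by
    have : 2 * occ (List.replicate q R ++ fpow f (K + 1)) w ≤ occ (fpow f K) w := by omega
    exact_mod_cast this
  push_cast
  linarith

end Pool.Agent.R527.AP
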