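import Pool.Agent.R527.AP.Defs

namespace Pool.Agent.R527.AP

theorem long_sg_append {r : ℕ} (u v : List (Fin (r + 1))) : sg (u ++ v) = sg u + sg v := by
  simp [sg]

theorem long_sg_single {r : ℕ} (c : Fin (r + 1)) : sg [c] = (c : ℕ) := by
  simp [sg]

theorem long_sg_le {r : ℕ} (X : List (Fin (r + 1))) : sg X ≤ X.length * r := by
  induction X with
  | nil => simp [sg]
  | cons c X ih =>
    have h1 : sg (c :: X) = (c : ℕ) + sg X := by simp [sg]
    have h2 : (c : ℕ) ≤ r := Nat.lt_succ_iff.mp c.isLt
    have h3 : (c :: X).length * r = X.length * r + r := by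
      rw [List.length_cons]; ring
    omega

theorem long_sg_le_of_zero {r : ℕ} (X : List (Fin (r + 1))) (h : (0 : Fin (r + 1)) ∈ X) :
    sg X + r ≤ X.length * r := by
  obtain ⟨p, q, rfl⟩ := List.append_of_mem h
  have h0 : p ++ 0 :: q = p ++ [0] ++ q := by simp
  rw [h0, long_sg_append, long_sg_append, long_sg_single]
  have h1 := long_sg_le p
  have h2 := long_sg_le q
  have h3 : (p ++ [(0 : Fin (r + 1))] ++ q).length * r = p.length * r + q.length * r + r := by
    simp only [List.length_append, List.length_singleton]; ring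
  rw [h3]
  simp only [Fin.val_zero]
  omega

/-- a word without the factor `0^(m+1)` is short -/
theorem long_factor {r : ℕ} (m : ℕ) : ∀ (n : ℕ) (Y : List (Fin (r + 1))), Y.length = n →
    (m + 1) * (sg Y + 1) ≤ Y.length →
    ∃ x y : List (Fin (r + 1)), Y = x ++ List.replicate (m + 1) 0 ++ y := by
  intro n
  induction n using Nat.strong_induction_on with
  | _ n ih =>
  intro Y hn hlen
  by_cases h : ∀ c ∈ Y.take (m + 1), c = 0
  · have hl : m + 1 ≤ Y.length := by
      refine le_trans ?_ hlen
      exact Nat.le_mul_of_pos_right _ (by omega)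
    refine ⟨[], Y.drop (m + 1), ?_⟩
    have h1 : Y.take (m + 1) = List.replicate (m + 1) 0 := by
      rw [List.eq_replicate_iff]
      exact ⟨by rw [List.length_take]; omega, h⟩
    rw [List.nil_append, ← h1, List.take_append_drop]
  · push Not at h
    obtain ⟨c, hc, hcf⟩ := h
    obtain ⟨p, q, hpq⟩ := List.append_of_mem hc
    have hplen : p.length ≤ m := by
      have := congrArg List.length hpq
      rw [List.length_take, List.length_append, List.length_cons] at this
      omega
    have hY : Y = p ++ [c] ++ (q ++ Y.drop (m + 1)) := by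
      calc Y = Y.take (m + 1) ++ Y.drop (m + 1) := (List.take_append_drop _ _).symm
        _ = (p ++ c :: q) ++ Y.drop (m + 1) := by rw [← hpq]
        _ = p ++ [c] ++ (q ++ Y.drop (m + 1)) := by simp
    generalize q ++ Y.drop (m + 1) = Z at hY
    have hc1 : 1 ≤ (c : ℕ) := by
      rcases Nat.eq_zero_or_pos (c : ℕ) with h0 | h0
      · exact absurd (Fin.ext (by simpa using h0)) hcf
      · exact h0
    have hcount : sg Z + 1 ≤ sg Y := by
      rw [hY, long_sg_append, long_sg_append, long_sg_single]
      omega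
    have hZlen : Y.length = p.length + 1 + Z.length := by
      rw [hY]; simp; omega
    have h2 : (m + 1) * (sg Z + 1) ≤ Z.length := by
      have h3 : (m + 1) * (sg Z + 1 + 1) ≤ (m + 1) * (sg Y + 1) :=
        Nat.mul_le_mul_left _ (by omega)
      have h4 : (m + 1) * (sg Z + 1 + 1) = (m + 1) * (sg Z + 1) + (m + 1) := by ring
      omega
    obtain ⟨x, y, hxy⟩ := ih Z.length (by omega) Z rfl h2
    refine ⟨p ++ [c] ++ x, y, ?_⟩
    rw [hY, hxy]
    simp [List.append_assoc]

/-- the shortest initial factor with index sum at least `D` -/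
theorem long_split {r : ℕ} (D : ℕ) (hD : 1 ≤ D) : ∀ Y : List (Fin (r + 1)), D ≤ sg Y →
    ∃ (X : List (Fin (r + 1))) (c : Fin (r + 1)) (y : List (Fin (r + 1))),
      Y = (X ++ [c]) ++ y ∧ sg X < D ∧ D ≤ sg X + c := by
  intro Y
  induction Y using List.reverseRecOn with
  | nil =>
    intro h
    have h0 : D ≤ 0 := by simpa [sg] using h
    omega
  | append_singleton Y c ih =>
    intro h
    by_cases h1 : D ≤ sg Y
    · obtain ⟨X, c', y, hXy, hX⟩ := ih h1
      exact ⟨X, c', y ++ [c], by rw [hXy, List.append_assoc], hX⟩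
    · refine ⟨Y, c, [], by simp, by omega, ?_⟩
      rw [long_sg_append, long_sg_single] at h
      exact h

theorem long_end {r : ℕ} (hO4 : ∀ x Y y w : List (Fin (r + 1)), occ (x ++ Y ++ y) w ≤ occ Y w)
    (q m : ℕ) (hqm : q ≤ m) (x z w : List (Fin (r + 1))) :
    (occ (x ++ (List.replicate m (Fin.last r)) ++ z) w : ℤ) ≤
      occ (List.replicate q (Fin.last r)) w := by
  obtain ⟨t, rfl⟩ := Nat.exists_eq_add_of_le hqm
  have h1 := hO4 x (List.replicate q (Fin.last r)) (List.replicate t (Fin.last r) ++ z) w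
  have e1 : x ++ List.replicate q (Fin.last r) ++ (List.replicate t (Fin.last r) ++ z) =
      x ++ (List.replicate (q + t) (Fin.last r)) ++ z := by
    rw [List.replicate_add]
    simp only [List.append_assoc]
  rw [e1] at h1
  exact_mod_cast h1

theorem t_LONG : S_OCC → S_CALC → S_CARRY → S_LONG := by
  intro hO hC hCar r D e q hr hD h1 h2
  obtain ⟨-, -, -, hO4, -⟩ := hO (Fin (r + 1))
  obtain ⟨-, hadd, hmono, -, hmv⟩ := hC (Fin (r + 1)) (Mv r D e)
  have hcar := hCar r D e hr
  have hq : 1 ≤ q := by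
    rcases Nat.eq_zero_or_pos q with h | h
    · subst h; omega
    · exact h
  refine ⟨(q + 1) * D, ?_⟩
  intro Y hY
  by_cases hc : D ≤ sg Y
  · obtain ⟨X', c, y, hXy, hX1, hX2⟩ := long_split D hD Y hc
    obtain ⟨X, hX⟩ : ∃ X, X = X' ++ [c] := ⟨_, rfl⟩
    have hsX : sg X = sg X' + c := by rw [hX, long_sg_append, long_sg_single]
    have hcr : (c : ℕ) ≤ r := Nat.lt_succ_iff.mp c.isLt
    obtain ⟨t, ht⟩ : ∃ t : ℕ, sg X = D + t := ⟨sg X - D, by omega⟩
    have htr : t < r + 1 := by omega
    have hpre : ∀ X1 X2, X = X1 ++ X2 → X2 ≠ [] → sg X1 ≤ D := by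
      intro X1 X2 hX12 hne
      obtain ⟨X2', d, rfl⟩ : ∃ X2' d, X2 = X2' ++ [d] :=
        ⟨X2.dropLast, X2.getLast hne, (List.dropLast_append_getLast hne).symm⟩
      rw [hX, ← List.append_assoc] at hX12
      have h3 := (List.append_inj' hX12 rfl).1
      have h4 : sg X' = sg X1 + sg X2' := by rw [h3, long_sg_append]
      omega
    rw [← hX] at hXy
    have hle := long_sg_le X
    have hk : q ≤ X.length := by
      by_contra hcon
      have h3 : (X.length + 1) * r ≤ q * r := Nat.mul_le_mul_right _ (by omega)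
      have h4 : (X.length + 1) * r = X.length * r + r := by ring
      omega
    rcases hk.eq_or_lt with hk | hk
    · -- k = q
      have hz : ∀ c ∈ X, c ≠ 0 := by
        intro d hd h0
        subst h0
        have h3 := long_sg_le_of_zero X hd
        rw [← hk] at h3
        omega
      have m1 := hmv _ _ (Mv.B' (e := e) [] X y ⟨t, htr⟩ ht hz)
      have m2 := hcar (X.length + e) ⟨t, htr⟩ [] y
      refine hmono _ _ (hadd _ _ m1 m2) (fun w => ?_)
      have h5 := long_end hO4 q (X.length + e) (by omega) []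
        ([(⟨t, htr⟩ : Fin (r + 1)) + Fin.ofNat (r + 1) (X.length + e)] ++ y) w
      have e1 : [] ++ List.replicate (X.length + e) (Fin.last r) ++
          ([(⟨t, htr⟩ : Fin (r + 1)) + Fin.ofNat (r + 1) (X.length + e)] ++ y) =
          [] ++ (List.replicate (X.length + e) (Fin.last r) ++
            [(⟨t, htr⟩ : Fin (r + 1)) + Fin.ofNat (r + 1) (X.length + e)]) ++ y := by
        simp only [List.append_assoc]
      rw [e1] at h5
      have e2 : [] ++ X ++ y = Y := by rw [hXy]; simp
      rw [e2]
      linarith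
    · -- k ≥ q + 1
      obtain ⟨k, hk'⟩ : ∃ k, X.length + e = k + 1 := ⟨X.length + e - 1, by omega⟩
      have m1 := hmv _ _ (Mv.B (e := e) [] X y ⟨t, htr⟩ ht hpre)
      have m2 := hcar k 0 [] ([⟨t, htr⟩] ++ y)
      refine hmono _ _ (hadd _ _ m1 m2) (fun w => ?_)
      have h5 := long_end hO4 q k (by omega) []
        ([(0 : Fin (r + 1)) + Fin.ofNat (r + 1) k] ++ ([⟨t, htr⟩] ++ y)) w
      have e1 : [] ++ List.replicate k (Fin.last r) ++
          ([(0 : Fin (r + 1)) + Fin.ofNat (r + 1) k] ++ ([⟨t, htr⟩] ++ y)) =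
          [] ++ (List.replicate k (Fin.last r) ++
            [(0 : Fin (r + 1)) + Fin.ofNat (r + 1) k]) ++ ([⟨t, htr⟩] ++ y) := by
        simp only [List.append_assoc]
      rw [e1] at h5
      have e2 : [] ++ X ++ y = Y := by rw [hXy]; simp
      have e3 : [] ++ (List.replicate (X.length + e) 0 ++ [(⟨t, htr⟩ : Fin (r + 1))]) ++ y =
          [] ++ (0 :: List.replicate k 0) ++ ([(⟨t, htr⟩ : Fin (r + 1))] ++ y) := by
        rw [hk', List.replicate_succ]
        simp only [List.append_assoc]
      rw [e2, e3]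
      linarith
  · have hlen : (q + 1) * (sg Y + 1) ≤ Y.length := by
      refine le_trans ?_ hY
      exact Nat.mul_le_mul_left _ (by omega)
    obtain ⟨x, y, hxy⟩ := long_factor q Y.length Y rfl hlen
    refine hmono _ _ (hcar q 0 x y) (fun w => ?_)
    have h5 := long_end hO4 q q le_rfl x
      ([(0 : Fin (r + 1)) + Fin.ofNat (r + 1) q] ++ y) w
    have e1 : x ++ List.replicate q (Fin.last r) ++
        ([(0 : Fin (r + 1)) + Fin.ofNat (r + 1) q] ++ y) =
        x ++ (List.replicate q (Fin.last r) ++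
          [(0 : Fin (r + 1)) + Fin.ofNat (r + 1) q]) ++ y := by
      simp only [List.append_assoc]
    rw [e1] at h5
    have e2 : x ++ (0 :: List.replicate q 0) ++ y = Y := by
      rw [hxy, List.replicate_succ]
    rw [e2]
    linarith

end Pool.Agent.R527.AP
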