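import Pool.Agent.R527.AP.Defs

namespace Pool.Agent.R527.AP

namespace OccAux

variable {A : Type} [DecidableEq A]

/-- the indicator of a prefix -/
def pr (X t : List A) : ℕ := if X.isPrefixOf t then 1 else 0

theorem occ_nil (X : List A) : occ X [] = pr X [] := rfl

theorem occ_cons (X : List A) (c : A) (w : List A) : occ X (c :: w) = pr X (c :: w) + occ X w := rfl

theorem pr_eq_one {X t : List A} (h : X <+: t) : pr X t = 1 := by
  unfold pr
  rw [if_pos (List.isPrefixOf_iff_prefix.2 h)]

theorem pr_eq_zero {X t : List A} (h : ¬ X <+: t) : pr X t = 0 := by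
  unfold pr
  rw [if_neg (fun h' => h (List.isPrefixOf_iff_prefix.1 h'))]

theorem pr_le_one (X t : List A) : pr X t ≤ 1 := by
  unfold pr
  split_ifs <;> simp

theorem pr_mono {X Y t s : List A} (h : X <+: t → Y <+: s) : pr X t ≤ pr Y s := by
  by_cases h1 : X <+: t
  · rw [pr_eq_one h1, pr_eq_one (h h1)]
  · rw [pr_eq_zero h1]
    exact Nat.zero_le _

theorem occ_mono {X Y : List A} (h : ∀ t : List A, pr X t ≤ pr Y t) (w : List A) :
    occ X w ≤ occ Y w := by
  induction w with
  | nil => exact h []
  | cons c w ih =>
    rw [occ_cons, occ_cons]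
    exact Nat.add_le_add (h _) ih

theorem occ_empty (w : List A) : occ [] w = w.length + 1 := by
  induction w with
  | nil => rfl
  | cons c w ih =>
    rw [occ_cons, ih, pr_eq_one (List.nil_prefix), List.length_cons]
    omega

theorem pr_sum' [Fintype A] (Y t : List A) (h : Y ≠ t) : pr Y t ≤ ∑ c : A, pr (Y ++ [c]) t := by
  by_cases h1 : Y <+: t
  · obtain ⟨s, rfl⟩ := h1
    cases s with
    | nil => exact absurd (List.append_nil Y).symm h
    | cons c s =>
      rw [pr_eq_one (List.prefix_append Y (c :: s))]
      have h2 : Y ++ [c] <+: Y ++ c :: s := ⟨s, by simp⟩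
      have h3 := Finset.single_le_sum (f := fun c' : A => pr (Y ++ [c']) (Y ++ c :: s))
        (fun i _ => Nat.zero_le _) (Finset.mem_univ c)
      have h4 := pr_eq_one h2
      omega
  · rw [pr_eq_zero h1]
    exact Nat.zero_le _

theorem occ_sum' [Fintype A] (Y w : List A) : occ Y w ≤ (∑ c : A, occ (Y ++ [c]) w) +
    (if Y.length ≤ w.length then 1 else 0) := by
  induction w with
  | nil =>
    simp only [occ_nil]
    by_cases h : Y.length ≤ ([] : List A).length
    · rw [if_pos h]
      have := pr_le_one Y []
      omega
    · rw [if_neg h]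
      have : pr Y [] = 0 := pr_eq_zero (fun h' => h h'.length_le)
      omega
  | cons c w ih =>
    simp only [occ_cons, Finset.sum_add_distrib]
    rw [List.length_cons]
    rcases lt_trichotomy Y.length (w.length + 1) with h | h | h
    · rw [if_pos h.le]
      rw [if_pos (by omega)] at ih
      have h2 : Y ≠ c :: w := by
        intro h'
        rw [h', List.length_cons] at h
        omega
      have := pr_sum' Y (c :: w) h2
      omega
    · rw [if_pos h.le]
      rw [if_neg (by omega)] at ih
      have := pr_le_one Y (c :: w)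
      omega
    · rw [if_neg (by omega)]
      rw [if_neg (by omega)] at ih
      have : pr Y (c :: w) = 0 := pr_eq_zero (fun h' => by
        have := h'.length_le
        rw [List.length_cons] at this
        omega)
      omega

theorem occ_append_right (Y y w : List A) : occ (Y ++ y) w ≤ occ Y w :=
  occ_mono (fun _ => pr_mono (fun h => (List.prefix_append Y y).trans h)) w

theorem pr_cons (c : A) (Z : List A) (d : A) (w : List A) : pr (c :: Z) (d :: w) ≤ pr Z w :=
  pr_mono (fun h => (List.cons_prefix_cons.1 h).2)

theorem pr_cons2 {c c' : A} (h : c ≠ c') (Z : List A) (d : A) (w : List A) :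
    pr (c :: Z) (d :: w) + pr (c' :: Z) (d :: w) ≤ pr Z w := by
  by_cases h1 : c = d
  · have h2 : ¬ (c' :: Z) <+: (d :: w) := by
      intro h3
      exact h (h1.trans (List.cons_prefix_cons.1 h3).1.symm)
    rw [pr_eq_zero h2]
    exact pr_cons c Z d w
  · have h2 : ¬ (c :: Z) <+: (d :: w) := fun h3 => h1 (List.cons_prefix_cons.1 h3).1
    rw [pr_eq_zero h2, Nat.zero_add]
    exact pr_cons c' Z d w

theorem occ_cons_nil (c : A) (Z : List A) : occ (c :: Z) [] = 0 := by
  rw [occ_nil]
  exact pr_eq_zero (fun h => by simpa using h.length_le)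

theorem occ_cons_cons (c : A) (Z w : List A) (d : A) : occ (c :: Z) (d :: w) ≤ occ Z w := by
  induction w generalizing d with
  | nil =>
    rw [occ_cons, occ_cons_nil, Nat.add_zero]
    exact pr_cons c Z d []
  | cons e w ih =>
    rw [occ_cons, occ_cons Z]
    have := pr_cons c Z d (e :: w)
    have := ih e
    omega

theorem occ_cons_cons2 {c c' : A} (h : c ≠ c') (Z w : List A) (d : A) :
    occ (c :: Z) (d :: w) + occ (c' :: Z) (d :: w) ≤ occ Z w := by
  induction w generalizing d with
  | nil =>
    rw [occ_cons, occ_cons_nil, Nat.add_zero, occ_cons, occ_cons_nil, Nat.add_zero]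
    exact pr_cons2 h Z d []
  | cons e w ih =>
    rw [occ_cons, occ_cons (c' :: Z), occ_cons Z]
    have := pr_cons2 h Z d (e :: w)
    have := ih e
    omega

theorem occ_two {c c' : A} (h : c ≠ c') (Z w : List A) :
    occ (c :: Z) w + occ (c' :: Z) w ≤ occ Z w := by
  cases w with
  | nil =>
    rw [occ_cons_nil, occ_cons_nil]
    exact Nat.zero_le _
  | cons d w =>
    refine (occ_cons_cons2 h Z w d).trans ?_
    rw [occ_cons]
    omega

theorem occ_tail (c : A) (Z w : List A) : occ (c :: Z) w ≤ occ Z w := by
  cases w with
  | nil =>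
    rw [occ_cons_nil]
    exact Nat.zero_le _
  | cons d w =>
    refine (occ_cons_cons c Z w d).trans ?_
    rw [occ_cons]
    omega

theorem occ_append_left (x Y w : List A) : occ (x ++ Y) w ≤ occ Y w := by
  induction x with
  | nil => exact le_rfl
  | cons c x ih => exact (occ_tail c (x ++ Y) w).trans ih

theorem occ_block (Y Z v : List A) : occ Y (Z ++ v) ≤ Z.length + occ Y v := by
  induction Z with
  | nil => simp
  | cons c Z ih =>
    rw [List.cons_append, occ_cons, List.length_cons]
    have := pr_le_one Y (c :: (Z ++ v))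
    omega

theorem occ_block' (Y Z v : List A) : occ Y v ≤ occ Y (Z ++ v) := by
  induction Z with
  | nil => exact le_rfl
  | cons c Z ih =>
    rw [List.cons_append, occ_cons]
    omega

theorem occ_repl (Y u Z Z' v : List A) :
    occ Y (u ++ (Z ++ v)) ≤ occ Y (u ++ (Z' ++ v)) + Z.length + min u.length Y.length := by
  induction u with
  | nil =>
    rw [List.nil_append, List.nil_append]
    have h1 := occ_block Y Z v
    have h2 := occ_block' Y Z' v
    omega
  | cons c u ih =>
    rw [List.cons_append, List.cons_append, occ_cons, occ_cons, List.length_cons]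
    by_cases h : Y.length ≤ u.length + 1
    · have h1 : pr Y (c :: (u ++ (Z ++ v))) ≤ pr Y (c :: (u ++ (Z' ++ v))) := by
        refine pr_mono (fun h' => ?_)
        have h2 : Y <+: c :: u :=
          List.prefix_of_prefix_length_le h' (⟨Z ++ v, by simp⟩) (by simpa using h)
        exact h2.trans ⟨Z' ++ v, by simp⟩
      have h3 : min u.length Y.length ≤ min (u.length + 1) Y.length :=
        min_le_min_right _ (Nat.le_succ _)
      omega
    · have h1 := pr_le_one Y (c :: (u ++ (Z ++ v)))
      have h2 : min u.length Y.length = u.length := min_eq_left (by omega)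
      have h3 : min (u.length + 1) Y.length = u.length + 1 := min_eq_left (by omega)
      rw [h3]
      rw [h2] at ih
      omega

end OccAux

open OccAux in
theorem t_OCC : S_OCC := by
  intro A _ _
  refine ⟨occ_empty, ?_, ?_, ?_, ?_⟩
  · intro Y w
    refine (occ_sum' Y w).trans ?_
    split_ifs <;> omega
  · intro c c' Y w h
    exact occ_two h Y w
  · intro x Y y w
    exact (occ_append_right (x ++ Y) y w).trans (occ_append_left x Y w)
  · intro Y u Z Z' v
    have h := occ_repl Y u Z Z' v
    rw [← List.append_assoc, ← List.append_assoc] at h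
    have h2 : min u.length Y.length ≤ Y.length := min_le_right _ _
    omega

end Pool.Agent.R527.AP
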